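import Mathlib
import Pool.Agent.Lib.MP_c9564b_pr.Count

/-! Labeled coupon collector: the expected recovery time with a random sample size `K` taking
values in `[k₁, k₂]`, `2 * k₂ ≤ n + 1`, lies between those of the fixed sizes `k₂` and `k₁`. -/

open MeasureTheory ProbabilityTheory Finset
open scoped ENNReal

namespace Pool.Agent.Results.MP_c9564b_pr.Monotone

open Pool.Agent.Lib.MP_c9564b_pr

/-- The matching `σ` is recovered from the first `t` samples `S 0, ..., S (t-1)`: every coupon
has been sampled, and `σ` is the only bijection consistent with the observed label sets. -/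
def Recovered {C L : Type} (σ : C ≃ L) (S : ℕ → Finset C) (t : ℕ) : Prop :=
  (∀ c : C, ∃ i < t, c ∈ S i) ∧
    ∀ τ : C ≃ L, (∀ i < t, τ '' (S i : Set C) = σ '' (S i : Set C)) → τ = σ

/-- The first time at which the matching is recovered (`∞` if it never is). -/
noncomputable def recoveryTime {C L : Type} (σ : C ≃ L) (S : ℕ → Finset C) : ℝ≥0∞ :=
  ⨅ (t : ℕ) (_ : Recovered σ S t), (t : ℝ≥0∞)

/-- The uniform law on the `k`-element subsets of `C`. -/
noncomputable def sampleLaw (C : Type) (k : ℕ) : Measure (Finset C) :=
  uniformOn {S : Finset C | S.card = k}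

/-- The expected recovery time when the samples are independent with common law `μ`. -/
noncomputable def expectedTime {C L : Type} (σ : C ≃ L) (μ : Measure (Finset C)) : ℝ≥0∞ :=
  ∫⁻ S, recoveryTime σ S ∂(Measure.infinitePi fun _ : ℕ => μ)

lemma recovered_iff {C L : Type} (σ : C ≃ L) (S : ℕ → Finset C) (t : ℕ) :
    Recovered σ S t ↔ (∀ c : C, ∃ i < t, c ∈ S i) ∧
      ∀ c c' : C, (∀ i < t, c ∈ S i ↔ c' ∈ S i) → c = c' := by
  classical
  refine and_congr_right fun _ => ⟨fun h c c' hcc => ?_, fun h τ hτ => ?_⟩
  · have := h ((Equiv.swap c c').trans σ) (by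
      intro i hi
      have h1 : (Equiv.swap c c') '' (S i : Set C) = (S i : Set C) := by
        ext x
        rw [Equiv.image_eq_preimage_symm, Equiv.symm_swap, Set.mem_preimage, mem_coe, mem_coe]
        by_cases hx : x = c
        · subst hx; simpa using (hcc i hi).symm
        by_cases hx' : x = c'
        · subst hx'; simpa using (hcc i hi)
        rw [Equiv.swap_apply_of_ne_of_ne hx hx']
      rw [Equiv.coe_trans, Set.image_comp, h1])
    have h2 := congrArg (fun e : C ≃ L => e c) this
    simpa using h2.symm
  · ext c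
    have : c = σ.symm (τ c) := by
      apply h
      intro i hi
      have h1 : τ c ∈ τ '' (S i : Set C) ↔ τ c ∈ σ '' (S i : Set C) := by rw [hτ i hi]
      rw [τ.injective.mem_set_image, Equiv.image_eq_preimage_symm, Set.mem_preimage] at h1
      simpa using h1
    conv_rhs => rw [this]
    simp

lemma recovered_mono {C L : Type} (σ : C ≃ L) (S : ℕ → Finset C) {t u : ℕ} (htu : t ≤ u)
    (h : Recovered σ S t) : Recovered σ S u :=
  ⟨fun c => (h.1 c).imp fun _ hi => ⟨hi.1.trans_le htu, hi.2⟩,
    fun τ hτ => h.2 τ fun i hi => hτ i (hi.trans_le htu)⟩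

lemma recovered_congr {C L : Type} (σ : C ≃ L) {S S' : ℕ → Finset C} {t : ℕ}
    (h : ∀ i < t, S i = S' i) : Recovered σ S t ↔ Recovered σ S' t := by
  unfold Recovered
  refine and_congr (forall_congr' fun c => exists_congr fun i => and_congr_right fun hi => ?_)
    (forall_congr' fun τ => imp_congr_left (forall_congr' fun i => imp_congr_right fun hi => ?_))
  · rw [h i hi]
  · rw [h i hi]

lemma recovered_update {C L : Type} (σ : C ≃ L) (S : ℕ → Finset C) {t i : ℕ} (hi : i < t)
    (A : Finset C) :
    Recovered σ (Function.update S i A) t ↔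
      Good {c | ¬ ∃ j < t, j ≠ i ∧ c ∈ S j}
        (fun c c' => ∀ j < t, j ≠ i → (c ∈ S j ↔ c' ∈ S j)) A := by
  rw [recovered_iff]
  unfold Good
  refine and_congr (forall_congr' fun c => ?_) (forall₂_congr fun c c' => ?_)
  · constructor
    · rintro ⟨j, hj, hc⟩ hn
      by_cases hji : j = i
      · subst hji; simpa using hc
      · rw [Function.update_of_ne hji] at hc
        exact absurd ⟨j, hj, hji, hc⟩ hn
    · intro h
      by_cases hn : ∃ j < t, j ≠ i ∧ c ∈ S j
      · obtain ⟨j, hj, hji, hc⟩ := hn
        exact ⟨j, hj, by rwa [Function.update_of_ne hji]⟩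
      · exact ⟨i, hi, by simpa using h hn⟩
  · constructor
    · intro h h1 h2
      apply h
      intro j hj
      by_cases hji : j = i
      · subst hji; simpa using h2
      · rw [Function.update_of_ne hji]; exact h1 j hj hji
    · intro h h1
      apply h
      · intro j hj hji
        have := h1 j hj
        rwa [Function.update_of_ne hji] at this
      · simpa using h1 i hi

lemma recoveryTime_eq_tsum {C L : Type} (σ : C ≃ L) (S : ℕ → Finset C) :
    recoveryTime σ S = ∑' t : ℕ, Set.indicator {S | ¬ Recovered σ S t} (1 : (ℕ → Finset C) → ℝ≥0∞) S := by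
  classical
  by_cases h : ∃ t, Recovered σ S t
  · have h1 : recoveryTime σ S = (Nat.find h : ℝ≥0∞) := by
      apply le_antisymm
      · exact iInf₂_le (Nat.find h) (Nat.find_spec h)
      · exact le_iInf₂ fun t ht => by exact_mod_cast Nat.find_min' h ht
    rw [h1, tsum_eq_sum (s := range (Nat.find h))]
    · rw [Finset.sum_congr rfl (g := fun _ => 1)]
      · simp
      · intro t ht
        rw [Set.indicator_of_mem (by exact Nat.find_min h (mem_range.1 ht))]
        rfl
    · intro t ht
      apply Set.indicator_of_notMem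
      simp only [mem_range, not_lt] at ht
      exact not_not.2 (recovered_mono σ S ht (Nat.find_spec h))
  · push Not at h
    have h1 : recoveryTime σ S = ⊤ := by simp [recoveryTime, h]
    rw [h1]
    have : ∀ t : ℕ, Set.indicator {S | ¬ Recovered σ S t} (1 : (ℕ → Finset C) → ℝ≥0∞) S = 1 := fun t => by
      rw [Set.indicator_of_mem (by exact h t)]; rfl
    simp [this]

lemma lmarginal_le {X : Type} [MeasurableSpace X] (μ ν : Measure X) [IsProbabilityMeasure μ]
    [IsProbabilityMeasure ν] (f : (ℕ → X) → ℝ≥0∞) (hf : Measurable f) (s : Finset ℕ)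
    (h : ∀ i ∈ s, ∀ x, ∫⁻ a, f (Function.update x i a) ∂μ ≤ ∫⁻ a, f (Function.update x i a) ∂ν) :
    lmarginal (fun _ => μ) s f ≤ lmarginal (fun _ => ν) s f := by
  induction s using Finset.induction_on with
  | empty => simp
  | insert i s hi ih =>
    have ih' := ih fun j hj => h j (mem_insert_of_mem hj)
    intro x
    let ρ : ℕ → Measure X := fun j => if j = i then μ else ν
    have hρ : ∀ j, IsProbabilityMeasure (ρ j) := fun j => by
      simp only [ρ]; split_ifs <;> infer_instance
    have hρs : ∀ g, lmarginal ρ s g = lmarginal (fun _ => ν) s g := by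
      intro g
      unfold lmarginal
      have : (fun j : s => ρ j) = fun _ : s => ν := by
        funext j
        have : (j : ℕ) ≠ i := fun hj => hi (hj ▸ j.2)
        simp [ρ, this]
      rw [this]
    have hρi : ρ i = μ := by simp [ρ]
    calc lmarginal (fun _ => μ) (insert i s) f x
        = ∫⁻ a, lmarginal (fun _ => μ) s f (Function.update x i a) ∂μ :=
          lmarginal_insert f hf hi x
      _ ≤ ∫⁻ a, lmarginal (fun _ => ν) s f (Function.update x i a) ∂μ :=
          lintegral_mono fun a => ih' _
      _ = lmarginal ρ (insert i s) f x := by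
          rw [lmarginal_insert f hf hi x, hρi, hρs]
      _ = lmarginal (fun _ => ν) s (fun y => ∫⁻ a, f (Function.update y i a) ∂μ) x := by
          rw [lmarginal_insert' f hf hi, hρi, hρs]
      _ ≤ lmarginal (fun _ => ν) s (fun y => ∫⁻ a, f (Function.update y i a) ∂ν) x :=
          lmarginal_mono (fun y => h i (mem_insert_self _ _) y) x
      _ = lmarginal (fun _ => ν) (insert i s) f x := by
          rw [lmarginal_insert' f hf hi]

lemma measurableSet_recovered {C L : Type} [Fintype C] (σ : C ≃ L) (t : ℕ) :
    MeasurableSet {S : ℕ → Finset C | Recovered σ S t} := by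
  have : {S : ℕ → Finset C | Recovered σ S t} =
      (range t).restrict ⁻¹' {y | Recovered σ (Function.updateFinset (fun _ => ∅) (range t) y) t} := by
    ext S
    simp only [Set.mem_ofPred_eq, Set.mem_preimage]
    apply recovered_congr
    intro i hi
    simp [Function.updateFinset, hi]
  rw [this]
  exact measurable_restrict _ (MeasurableSet.of_discrete)

lemma prob_eq_lmarginal {C L : Type} [Fintype C] (σ : C ≃ L) (t : ℕ) (μ : Measure (Finset C))
    [IsProbabilityMeasure μ] :
    (Measure.infinitePi fun _ : ℕ => μ) {S | Recovered σ S t} =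
      lmarginal (fun _ => μ) (range t)
        (Set.indicator {S | Recovered σ S t} (1 : (ℕ → Finset C) → ℝ≥0∞)) (fun _ => ∅) := by
  unfold lmarginal
  rw [← Measure.infinitePi_map_restrict (μ := fun _ : ℕ => μ) (I := range t),
    lintegral_map (Measurable.of_discrete) (measurable_restrict _),
    ← lintegral_indicator_one (measurableSet_recovered σ t)]
  apply lintegral_congr
  intro S
  have : S ∈ {S : ℕ → Finset C | Recovered σ S t} ↔
      Function.updateFinset (fun _ => ∅) (range t) ((range t).restrict S) ∈
        {S : ℕ → Finset C | Recovered σ S t} := by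
    simp only [Set.mem_ofPred_eq]
    apply recovered_congr
    intro i hi
    simp [Function.updateFinset, hi]
  by_cases h : S ∈ {S : ℕ → Finset C | Recovered σ S t}
  · rw [Set.indicator_of_mem h, Set.indicator_of_mem (this.1 h)]; rfl
  · rw [Set.indicator_of_notMem h, Set.indicator_of_notMem (fun h' => h (this.2 h'))]

lemma expectedTime_le {C L : Type} [Fintype C] (σ : C ≃ L) (μ ν : Measure (Finset C))
    [IsProbabilityMeasure μ] [IsProbabilityMeasure ν]
    (h : ∀ F r, Equivalence r → μ {A | Good F r A} ≤ ν {A | Good F r A}) :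
    expectedTime σ ν ≤ expectedTime σ μ := by
  unfold expectedTime
  simp_rw [recoveryTime_eq_tsum]
  have hm : ∀ t, MeasurableSet {S : ℕ → Finset C | ¬ Recovered σ S t} :=
    fun t => (measurableSet_recovered σ t).compl
  rw [lintegral_tsum fun t => (measurable_one.indicator (hm t)).aemeasurable,
    lintegral_tsum fun t => (measurable_one.indicator (hm t)).aemeasurable]
  refine ENNReal.tsum_le_tsum fun t => ?_
  rw [lintegral_indicator_one (hm t), lintegral_indicator_one (hm t)]
  have e : {S : ℕ → Finset C | ¬ Recovered σ S t} = {S | Recovered σ S t}ᶜ := rfl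
  rw [e, prob_compl_eq_one_sub (measurableSet_recovered σ t),
    prob_compl_eq_one_sub (measurableSet_recovered σ t)]
  apply tsub_le_tsub_left
  rw [prob_eq_lmarginal, prob_eq_lmarginal]
  apply lmarginal_le μ ν _ (measurable_one.indicator (measurableSet_recovered σ t))
  intro i hi x
  have e2 : (fun a => Set.indicator {S | Recovered σ S t} (1 : (ℕ → Finset C) → ℝ≥0∞) (Function.update x i a)) =
      Set.indicator {A | Good {c | ¬ ∃ j < t, j ≠ i ∧ c ∈ x j}
        (fun c c' => ∀ j < t, j ≠ i → (c ∈ x j ↔ c' ∈ x j)) A} 1 := by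
    funext A
    have := recovered_update σ x (mem_range.1 hi) A
    by_cases hA : Recovered σ (Function.update x i A) t
    · rw [Set.indicator_of_mem (by exact hA), Set.indicator_of_mem (by exact this.1 hA)]; rfl
    · rw [Set.indicator_of_notMem (by exact hA),
        Set.indicator_of_notMem (by exact fun h' => hA (this.2 h'))]
  rw [e2, lintegral_indicator_one MeasurableSet.of_discrete,
    lintegral_indicator_one MeasurableSet.of_discrete]
  exact h _ _ ⟨fun _ _ _ _ => Iff.rfl, fun h j hj hji => (h j hj hji).symm,
    fun h h' j hj hji => (h j hj hji).trans (h' j hj hji)⟩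

lemma sampleLaw_apply {C : Type} [Fintype C] [DecidableEq C] (k : ℕ) (P : Finset C → Prop)
    [DecidablePred P] :
    sampleLaw C k {A | P A} =
      (#((powersetCard k univ).filter P) : ℝ≥0∞) / ((Fintype.card C).choose k : ℕ) := by
  have e1 : {S : Finset C | S.card = k} = (powersetCard k (univ : Finset C) : Set (Finset C)) := by
    ext S; simp [mem_powersetCard]
  have e2 : {A : Finset C | P A} = ((univ : Finset (Finset C)).filter P : Set (Finset C)) := by
    ext S; simp
  rw [sampleLaw, e1, e2, uniformOn_apply_finset, card_powersetCard, card_univ]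
  congr 3
  ext S; simp

lemma isProb_sampleLaw {C : Type} [Fintype C] {k : ℕ} (hk : k ≤ Fintype.card C) :
    IsProbabilityMeasure (sampleLaw C k) := by
  apply isProbabilityMeasure_uniformOn (Set.toFinite _)
  obtain ⟨S, -, hS⟩ := Finset.exists_subset_card_eq (s := (univ : Finset C)) (n := k)
    (by rwa [card_univ])
  exact ⟨S, hS⟩

lemma sampleLaw_mono {C : Type} [Fintype C] (F : Set C) (r : C → C → Prop) (hr : Equivalence r)
    {k l : ℕ} (hkl : k ≤ l) (hl : 2 * l ≤ Fintype.card C + 1) :
    sampleLaw C k {A | Good F r A} ≤ sampleLaw C l {A | Good F r A} := by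
  classical
  induction l, hkl using Nat.le_induction with
  | base => exact le_rfl
  | succ l hkl ih =>
    refine (ih (by omega)).trans ?_
    rw [sampleLaw_apply, sampleLaw_apply]
    have h1 : 0 < (Fintype.card C).choose l := Nat.choose_pos (by omega)
    have h2 : 0 < (Fintype.card C).choose (l + 1) := Nat.choose_pos (by omega)
    have h3 := step_choose F r hr l (by omega)
    rw [ENNReal.div_le_iff (by exact_mod_cast h1.ne') (ENNReal.natCast_ne_top _),
      ENNReal.div_eq_inv_mul, mul_assoc, ← ENNReal.div_eq_inv_mul,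
      ENNReal.le_div_iff_mul_le (Or.inl (by exact_mod_cast h2.ne'))
        (Or.inl (ENNReal.natCast_ne_top _))]
    exact_mod_cast h3

/-- Monotonicity of the expected recovery time. -/
theorem result (C L : Type) [Fintype C] (σ : C ≃ L) (k₁ k₂ : ℕ)
    (hk₂ : 2 * k₂ ≤ Fintype.card C + 1)
    (K : Measure ℕ) [IsProbabilityMeasure K] (hK : K (Set.Icc k₁ k₂) = 1) :
    expectedTime σ (sampleLaw C k₂) ≤ expectedTime σ (K.bind (sampleLaw C)) ∧
      expectedTime σ (K.bind (sampleLaw C)) ≤ expectedTime σ (sampleLaw C k₁) := by
  have hae : ∀ᵐ k ∂K, k ∈ Set.Icc k₁ k₂ :=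
    (mem_ae_iff_prob_eq_one (MeasurableSet.of_discrete)).2 hK
  obtain ⟨k₀, hk₀⟩ := hae.exists
  have hn : k₂ ≤ Fintype.card C := by omega
  have hp₂ := isProb_sampleLaw hn
  have hp₁ := isProb_sampleLaw (C := C) (k := k₁) (hk₀.1.trans (hk₀.2.trans hn))
  have hb : ∀ E : Set (Finset C), (K.bind (sampleLaw C)) E = ∫⁻ k, sampleLaw C k E ∂K :=
    fun E => Measure.bind_apply MeasurableSet.of_discrete Measurable.of_discrete.aemeasurable
  have hpK : IsProbabilityMeasure (K.bind (sampleLaw C)) := by
    constructor
    rw [hb, lintegral_congr_ae (g := fun _ => 1)]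
    · simp
    · filter_upwards [hae] with k hk
      have := isProb_sampleLaw (C := C) (k := k) (hk.2.trans hn)
      exact measure_univ
  constructor
  · apply expectedTime_le
    intro F r hr
    rw [hb]
    calc ∫⁻ k, sampleLaw C k {A | Good F r A} ∂K
        ≤ ∫⁻ _, sampleLaw C k₂ {A | Good F r A} ∂K := by
          apply lintegral_mono_ae
          filter_upwards [hae] with k hk
          exact sampleLaw_mono F r hr hk.2 hk₂
      _ = _ := by simp
  · apply expectedTime_le
    intro F r hr
    rw [hb]
    calc sampleLaw C k₁ {A | Good F r A} = ∫⁻ _, sampleLaw C k₁ {A | Good F r A} ∂K := by simp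
      _ ≤ _ := by
          apply lintegral_mono_ae
          filter_upwards [hae] with k hk
          exact sampleLaw_mono F r hr hk.1 (by have := hk.2; omega)

end Pool.Agent.Results.MP_c9564b_pr.Monotone
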