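import Pool.Agent.FS.Wider69.Count
import Pool.Agent.Results.MP_c9564b_pr.Monotone

/-! Labeled coupon collector with two sample sizes `k₁ ≤ k₂`, `k₁ + k₂ ≤ n`. -/

open MeasureTheory ProbabilityTheory Finset
open scoped ENNReal

namespace Pool.Agent.Results.MP_c9564b_pr.WiderRange

open Pool.Agent.Lib.MP_c9564b_pr Pool.Agent.Results.MP_c9564b_pr.Monotone Pool.Agent.FS.Wider69

lemma law_le {C : Type} [Fintype C] (F : Set C) (r : C → C → Prop) (hr : Equivalence r)
    {k l : ℕ} (hkl : k ≤ l) (hl : k + l ≤ Fintype.card C) :
    sampleLaw C k {A | Good F r A} ≤ sampleLaw C l {A | Good F r A} := by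
  classical
  by_cases h : 2 * l ≤ Fintype.card C + 1
  · exact sampleLaw_mono F r hr hkl h
  · refine (sampleLaw_mono F r hr (l := Fintype.card C - l) (by omega) (by omega)).trans ?_
    rw [sampleLaw_apply, sampleLaw_apply, Nat.choose_symm (by omega)]
    have h1 := wd_compl F r hr (Fintype.card C - l) (by omega)
    rw [show Fintype.card C - (Fintype.card C - l) = l by omega] at h1
    gcongr

/-- The expected recovery time with two sample sizes `k₁ ≤ k₂` whose sum is at most the number
of coupons lies between those of the fixed sizes `k₂` and `k₁`. -/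
theorem result (C L : Type) [Fintype C] (σ : C ≃ L) (k₁ k₂ : ℕ) (hk : k₁ ≤ k₂)
    (hn : k₁ + k₂ ≤ Fintype.card C)
    (K : Measure ℕ) [IsProbabilityMeasure K] (hK : K {k₁, k₂} = 1) :
    expectedTime σ (sampleLaw C k₂) ≤ expectedTime σ (K.bind (sampleLaw C)) ∧
      expectedTime σ (K.bind (sampleLaw C)) ≤ expectedTime σ (sampleLaw C k₁) := by
  have hae : ∀ᵐ k ∂K, k ∈ ({k₁, k₂} : Set ℕ) :=
    (mem_ae_iff_prob_eq_one (MeasurableSet.of_discrete)).2 hK
  have hp₂ := isProb_sampleLaw (C := C) (k := k₂) (by omega)
  have hp₁ := isProb_sampleLaw (C := C) (k := k₁) (by omega)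
  have hb : ∀ E : Set (Finset C), (K.bind (sampleLaw C)) E = ∫⁻ k, sampleLaw C k E ∂K :=
    fun E => Measure.bind_apply MeasurableSet.of_discrete Measurable.of_discrete.aemeasurable
  have hpK : IsProbabilityMeasure (K.bind (sampleLaw C)) := by
    constructor
    rw [hb, lintegral_congr_ae (g := fun _ => 1)]
    · simp
    · filter_upwards [hae] with k hk
      rcases hk with rfl | rfl <;> exact measure_univ
  constructor
  · apply expectedTime_le
    intro F r hr
    rw [hb]
    calc ∫⁻ k, sampleLaw C k {A | Good F r A} ∂K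
        ≤ ∫⁻ _, sampleLaw C k₂ {A | Good F r A} ∂K := by
          apply lintegral_mono_ae
          filter_upwards [hae] with k hk'
          rcases hk' with rfl | rfl
          · exact law_le F r hr hk hn
          · exact le_rfl
      _ = _ := by simp
  · apply expectedTime_le
    intro F r hr
    rw [hb]
    calc sampleLaw C k₁ {A | Good F r A} = ∫⁻ _, sampleLaw C k₁ {A | Good F r A} ∂K := by simp
      _ ≤ _ := by
          apply lintegral_mono_ae
          filter_upwards [hae] with k hk'
          rcases hk' with rfl | rfl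
          · exact le_rfl
          · exact law_le F r hr hk hn

end Pool.Agent.Results.MP_c9564b_pr.WiderRange
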